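import Mathlib
import Pool.Agent.Helper40.Licci.Defs
import Pool.Agent.LCB.All

/-!
In codimension `c ≥ 5` every triplet `(c, d, t)` for which `T_{c-1,d+1,t+1}` is not a Dynkin
diagram, except possibly the six triplets `(5,3,1)`, `(5,1,3)`, `(5,4,1)`, `(5,1,4)`, `(7,2,1)`,
`(7,1,2)`, admits a non-licci perfect ideal.

Sketch. Work with ideals primary to the maximal ideal in the local ring at the origin of affine
`c`-space over the field with seven elements. The quotient of the number of homomorphisms
`I → R/I` by the `c`-th power of the number of elements of `R/I` is a linkage invariant, and it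
is `1` for complete intersections. Base examples of types `(5,2,2)`, `(6,3,1)`, `(8,2,1)`,
`(4,5,1)` have another value. Basic double links in which two members of the regular sequence
have a common factor modulo `𝔪 J` raise the deviation: `(c,d,t)` gives `(c,d+1,t)` for `t ≥ 2`
and `(c,d+2,t)` always. The point is a property of the Koszul complex: the exterior product of
the coefficient rows of a regular sequence is not in the image of the differential modulo the
sequence.
-/

namespace Pool.Agent.Results.MP_5cc037_ag.CodimAtLeastFive

open Pool.Agent.Helper40.Licci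

/-- Every triplet `(c, d, t)` with `c ≥ 5` for which `T_{c-1,d+1,t+1}` is not Dynkin, except
possibly six, admits a non-licci perfect ideal. -/
theorem result (c d t : ℕ) (hc : 5 ≤ c) (hd : 1 ≤ d) (ht : 1 ≤ t)
    (hT : (1 : ℚ) / ((c : ℚ) - 1) + 1 / ((d : ℚ) + 1) + 1 / ((t : ℚ) + 1) ≤ 1)
    (h : (c, d, t) ∉ ({(5, 3, 1), (5, 1, 3), (5, 4, 1), (5, 1, 4), (7, 2, 1), (7, 1, 2)} :
      Set (ℕ × ℕ × ℕ))) : AdmitsNonLicci c d t :=
  Pool.Agent.LCB.all_five c d t hc hd ht hT h

end Pool.Agent.Results.MP_5cc037_ag.CodimAtLeastFive
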